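import Pool.Agent.Work.MP_e21d36_nt.OC3

/-!
If `τ` is not quadratic and `σ` is the image of `τ` or of its conjugate under a rational Moebius
map that moves the cusp at infinity, then two of `π E₂, π² E₄, π³ E₆` are algebraically
independent at `τ` or at `σ`.
-/

namespace Pool.Agent.Results.MP_e21d36_nt.OneCusp

theorem result :
    ∀ X Y Z : ℂ → ℂ,
      (∀ s, X s = (Real.pi : ℂ) * (1 - 24 * ∑' n : ℕ,
        (ArithmeticFunction.sigma 1 (n + 1) : ℂ) *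
          Complex.exp (2 * (Real.pi : ℂ) * Complex.I * s) ^ (n + 1))) →
      (∀ s, Y s = (Real.pi : ℂ) ^ 2 * (1 + 240 * ∑' n : ℕ,
        (ArithmeticFunction.sigma 3 (n + 1) : ℂ) *
          Complex.exp (2 * (Real.pi : ℂ) * Complex.I * s) ^ (n + 1))) →
      (∀ s, Z s = (Real.pi : ℂ) ^ 3 * (1 - 504 * ∑' n : ℕ,
        (ArithmeticFunction.sigma 5 (n + 1) : ℂ) *
          Complex.exp (2 * (Real.pi : ℂ) * Complex.I * s) ^ (n + 1))) →
      ∀ τ σ : ℂ, 0 < τ.im → 0 < σ.im →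
        (¬ ∃ a b c : ℤ, a ≠ 0 ∧ (a : ℂ) * τ ^ 2 + (b : ℂ) * τ + (c : ℂ) = 0) →
        ∀ a b c d : ℤ, c ≠ 0 →
          (σ = ((a : ℂ) * τ + (b : ℂ)) / ((c : ℂ) * τ + (d : ℂ)) ∨
            σ = ((a : ℂ) * star τ + (b : ℂ)) / ((c : ℂ) * star τ + (d : ℂ))) →
          ∃ s ∈ ({τ, σ} : Set ℂ), AlgebraicIndependent ℚ ![X s, Y s] ∨
            AlgebraicIndependent ℚ ![X s, Z s] ∨ AlgebraicIndependent ℚ ![Y s, Z s] := by
  intro X Y Z hX hY hZ τ σ h hσ hq a b c d hc he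
  have key : ∀ s, Pool.Agent.E21.Dz s → AlgebraicIndependent ℚ ![X s, Y s] ∨
      AlgebraicIndependent ℚ ![X s, Z s] ∨ AlgebraicIndependent ℚ ![Y s, Z s] := by
    intro s hs
    rw [hX, hY, hZ]
    exact hs
  rcases Pool.Agent.E21.one_cusp h hσ hq hc he with h1 | h1
  · exact ⟨τ, by simp, key τ h1⟩
  · exact ⟨σ, by simp, key σ h1⟩

end Pool.Agent.Results.MP_e21d36_nt.OneCusp
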