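import Pool.Agent.Work.MP_e21d36_nt.Fin

/-!
Two lattices with a common period: if `1, τ₁, τ₂` are linearly independent over `ℚ`, then for
every `c ≠ 0` two of the six numbers `c E₂(τᵢ), c² E₄(τᵢ), c³ E₆(τᵢ)` are algebraically
independent.
-/

namespace Pool.Agent.Results.MP_e21d36_nt.TwoLattices

theorem result :
    ∀ P Q R : ℂ → ℂ,
      (∀ τ, P τ = 1 - 24 * ∑' n : ℕ, (ArithmeticFunction.sigma 1 (n + 1) : ℂ) *
        Complex.exp (2 * (Real.pi : ℂ) * Complex.I * τ) ^ (n + 1)) →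
      (∀ τ, Q τ = 1 + 240 * ∑' n : ℕ, (ArithmeticFunction.sigma 3 (n + 1) : ℂ) *
        Complex.exp (2 * (Real.pi : ℂ) * Complex.I * τ) ^ (n + 1)) →
      (∀ τ, R τ = 1 - 504 * ∑' n : ℕ, (ArithmeticFunction.sigma 5 (n + 1) : ℂ) *
        Complex.exp (2 * (Real.pi : ℂ) * Complex.I * τ) ^ (n + 1)) →
      ∀ τ₁ τ₂ c : ℂ, 0 < τ₁.im → 0 < τ₂.im → c ≠ 0 →
        (∀ i j k : ℤ, (i : ℂ) + (j : ℂ) * τ₁ + (k : ℂ) * τ₂ = 0 → i = 0 ∧ j = 0 ∧ k = 0) →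
        ∃ u ∈ ({c * P τ₁, c ^ 2 * Q τ₁, c ^ 3 * R τ₁, c * P τ₂, c ^ 2 * Q τ₂, c ^ 3 * R τ₂} :
            Set ℂ),
          ∃ v ∈ ({c * P τ₁, c ^ 2 * Q τ₁, c ^ 3 * R τ₁, c * P τ₂, c ^ 2 * Q τ₂, c ^ 3 * R τ₂} :
            Set ℂ), AlgebraicIndependent ℚ ![u, v] := by
  intro P Q R hP hQ hR τ₁ τ₂ c h1 h2 hc hind
  have eP : P = Pool.Agent.E21.eP := funext hP
  have eQ : Q = Pool.Agent.E21.eQ := funext hQ
  have eR : R = Pool.Agent.E21.eR := funext hR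
  subst eP eQ eR
  exact Pool.Agent.E21.two_lattices h1 h2 hc hind

end Pool.Agent.Results.MP_e21d36_nt.TwoLattices
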